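import Pool.Agent.P.MP_647b44_gt.Norm

/-! The three local configurations of an odd symmetry that force vanishing. -/

namespace Pool.Agent.P.MP_647b44_gt

open Equiv Finset

variable {V : Type*} [Fintype V] [DecidableEq V] {M : Type*} [AddCommGroup M]

/-- The relations satisfied by `ρ ↦ class of ρ m ρ⁻¹`. -/
structure Sys (m : Perm (V × Fin 3)) (w : Perm (V × Fin 3) → M) : Prop where
  inv : ∀ p, m (m p) = p
  ne : ∀ p, m p ≠ p
  AS : ∀ p q : V × Fin 3, p ≠ q → p.1 = q.1 → ∀ ρ, w (swap p q * ρ) = -w ρ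
  ISO : ∀ (π : Perm V) ρ, w (prodCongrLeft (fun _ : Fin 3 => π) * ρ) = w ρ
  C : ∀ k, k * m = m * k → ∀ ρ, w (ρ * k) = w ρ
  IHX : ∀ (ρ : Perm (V × Fin 3)) (x a b y c : V × Fin 3), a.1 = x.1 → b.1 = x.1 → x ≠ a → x ≠ b →
    a ≠ b → m x = y → ρ x = x → ρ y = y → y.1 ≠ x.1 → c.1 = y.1 → c ≠ y →
    w ρ = w (swap a c * ρ) + w (swap b c * ρ)

theorem as_vert (w : Perm (V × Fin 3) → M)
    (hAS : ∀ p q : V × Fin 3, p ≠ q → p.1 = q.1 → ∀ ρ, w (swap p q * ρ) = -w ρ)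
    (h : Perm (V × Fin 3)) (hh : ∀ p, (h p).1 = p.1) (ρ : Perm (V × Fin 3)) :
    w (h * ρ) = (Perm.sign h : ℤ) • w ρ := by
  induction hc : h.support.card using Nat.strong_induction_on generalizing h with
  | _ c ih =>
    by_cases h1 : h = 1
    · subst h1; simp
    · obtain ⟨p, hp⟩ : ∃ p, h p ≠ p := by
        by_contra hcon
        push Not at hcon
        exact h1 (Equiv.ext hcon)
      have hlt := Perm.card_support_swap_mul hp
      have hv : ∀ q, ((swap p (h p) * h) q).1 = q.1 := by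
        intro q
        rw [Perm.mul_apply, swap_apply_def]
        split_ifs with h2 h3
        · rw [hh, ← h2, hh]
        · rw [h.injective h3]
        · exact hh q
      have h2 := ih _ (hc ▸ hlt) _ hv rfl
      have h3 : h * ρ = swap p (h p) * (swap p (h p) * h * ρ) := by
        rw [← mul_assoc, ← mul_assoc, swap_mul_self, one_mul]
      rw [h3, hAS _ _ hp.symm (hh p).symm, h2, Perm.sign_mul, Perm.sign_swap hp.symm]
      simp

theorem Sys.E {m : Perm (V × Fin 3)} {w : Perm (V × Fin 3) → M} (S : Sys m w)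
    (h : Perm (V × Fin 3)) (π : Perm V) (hh : ∀ p, (h p).1 = π p.1) (ρ : Perm (V × Fin 3)) :
    w (h * ρ) = ((Perm.sign h * Perm.sign π : ℤˣ) : ℤ) • w ρ := by
  set P : Perm (V × Fin 3) := prodCongrLeft (fun _ : Fin 3 => π) with hP
  have h0 : ∀ p, ((P⁻¹ * h) p).1 = p.1 := by
    intro p
    apply π.injective
    have : ∀ q, (P q).1 = π q.1 := fun q => rfl
    rw [← this, ← hh]
    simp
  have h1 : h * ρ = P * (P⁻¹ * h * ρ) := by group
  have h2 : Perm.sign P = Perm.sign π := by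
    rw [hP, Perm.sign_prodCongrLeft]
    simp [pow_succ]
  rw [h1, S.ISO, as_vert w S.AS _ h0, Perm.sign_mul, Perm.sign_inv, h2, mul_comm]

omit [Fintype V] [DecidableEq V] in
theorem pow_fst {φ : Perm (V × Fin 3)} {π : Perm V} (hπ : ∀ p, (φ p).1 = π p.1) (i : ℕ)
    (p : V × Fin 3) : ((φ ^ i) p).1 = (π ^ i) p.1 := by
  induction i with
  | zero => simp
  | succ i ih => rw [pow_succ', pow_succ', Perm.mul_apply, Perm.mul_apply, hπ, ih]

omit [Fintype V] [DecidableEq V] in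
theorem norm_vert (w : Perm (V × Fin 3) → M) (φ s : Perm (V × Fin 3)) (π : Perm V)
    (hπ : ∀ p, (φ p).1 = π p.1) (U : Set V) (n r : ℕ) (hn : 0 < n)
    (hw : ∀ ρ, w (φ * ρ * φ⁻¹) = -w ρ)
    (hs : ∀ x, x.1 ∉ U → s x = x)
    (hK : ∀ x ∈ U, (π ^ n) x ∈ U)
    (hd : ∀ i, 0 < i → i < n → ∀ x ∈ U, (π ^ i) x ∉ U)
    (hr : Even r)
    (hloc : ∀ ρ : Perm (V × Fin 3), (∀ x, x.1 ∈ U → ρ x = x) →
      w ρ = ∑ j ∈ range r, w ((φ ^ n) ^ j * s * ((φ ^ n) ^ j)⁻¹ * ρ))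
    (hwrap : ∀ ρ : Perm (V × Fin 3), (∀ x, x.1 ∈ U → ρ x = x) →
      w ((φ ^ n) ^ r * s * ((φ ^ n) ^ r)⁻¹ * ρ) = w (s * ρ)) : w 1 = 0 := by
  refine norm_lemma w φ s {x | x.1 ∈ U} n r hn hw hs ?_ ?_ hr ?_ ?_
  · intro x hx
    change ((φ ^ n) x).1 ∈ U
    rw [pow_fst hπ]; exact hK _ hx
  · intro i h0 hi x hx
    change ((φ ^ i) x).1 ∉ U
    rw [pow_fst hπ]; exact hd i h0 hi _ hx
  · intro ρ hρ; simpa only [pow_mul] using hloc ρ hρ
  · intro ρ hρ; simpa only [pow_mul] using hwrap ρ hρ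

omit [Fintype V] in
theorem Sys.G1 {m : Perm (V × Fin 3)} {w : Perm (V × Fin 3) → M} (S : Sys m w)
    (φ : Perm (V × Fin 3)) (π : Perm V) (hπ : ∀ p, (φ p).1 = π p.1)
    (hw : ∀ ρ, w (φ * ρ * φ⁻¹) = -w ρ) (n : ℕ) (hn : 0 < n) (x a b y c : V × Fin 3)
    (ha : a.1 = x.1) (hb : b.1 = x.1) (hxa : x ≠ a) (hxb : x ≠ b) (hab : a ≠ b) (hxy : m x = y)
    (hyx : y.1 ≠ x.1) (hc : c.1 = y.1) (hcy : c ≠ y)
    (h1 : (φ ^ n) a = b) (h2 : (φ ^ n) b = a) (h3 : (φ ^ n) c = c)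
    (hd : ∀ i, 0 < i → i < n → ∀ z ∈ ({x.1, y.1} : Set V), (π ^ i) z ∉ ({x.1, y.1} : Set V)) :
    w 1 = 0 := by
  refine norm_vert w φ (swap a c) π hπ {x.1, y.1} n 2 hn hw ?_ ?_ hd even_two ?_ ?_
  · intro p hp
    refine swap_apply_of_ne_of_ne ?_ ?_ <;> rintro rfl <;> simp_all
  · rintro z (rfl | rfl)
    · left; rw [← ha, ← pow_fst hπ, h1, hb, ha]
    · right; rw [← hc, ← pow_fst hπ, h3]; rfl
  · intro ρ hρ
    rw [S.IHX ρ x a b y c ha hb hxa hxb hab hxy (hρ _ (by simp)) (hρ _ (by simp)) hyx hc hcy]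
    simp only [sum_range_succ, range_zero, sum_empty, zero_add, ← swap_apply_apply, pow_zero,
      pow_one, Perm.one_apply, h1, h3]
  · intro ρ _
    simp only [← swap_apply_apply, pow_two, Perm.mul_apply, h1, h2, h3]

omit [Fintype V] in
theorem Sys.G2 {m : Perm (V × Fin 3)} {w : Perm (V × Fin 3) → M} (S : Sys m w)
    (φ : Perm (V × Fin 3)) (π : Perm V) (hπ : ∀ p, (φ p).1 = π p.1)
    (hw : ∀ ρ, w (φ * ρ * φ⁻¹) = -w ρ) (n : ℕ) (hn : 0 < n) (x a b y c d : V × Fin 3)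
    (ha : a.1 = x.1) (hb : b.1 = x.1) (hxa : x ≠ a) (hxb : x ≠ b) (hab : a ≠ b) (hxy : m x = y)
    (hyx : y.1 ≠ x.1) (hc : c.1 = y.1) (hd' : d.1 = y.1) (hcy : c ≠ y) (hdy : d ≠ y) (hcd : c ≠ d)
    (h1 : (φ ^ n) a = c) (h2 : (φ ^ n) c = b) (h3 : (φ ^ n) b = d)
    (hd : ∀ i, 0 < i → i < n → ∀ z ∈ ({x.1, y.1} : Set V), (π ^ i) z ∉ ({x.1, y.1} : Set V)) :
    w 1 = 0 := by
  refine norm_vert w φ (swap a c) π hπ {x.1, y.1} n 2 hn hw ?_ ?_ hd even_two ?_ ?_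
  · intro p hp
    refine swap_apply_of_ne_of_ne ?_ ?_ <;> rintro rfl <;> simp_all
  · rintro z (rfl | rfl)
    · right; rw [← ha, ← pow_fst hπ, h1, hc]; rfl
    · left; rw [← hc, ← pow_fst hπ, h2, hb]
  · intro ρ hρ
    rw [S.IHX ρ x a b y c ha hb hxa hxb hab hxy (hρ _ (by simp)) (hρ _ (by simp)) hyx hc hcy]
    simp only [sum_range_succ, range_zero, sum_empty, zero_add, ← swap_apply_apply, pow_zero,
      pow_one, Perm.one_apply, h1, h2, swap_comm b c]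
  · intro ρ hρ
    have e1 := S.IHX ρ x a b y c ha hb hxa hxb hab hxy (hρ _ (by simp)) (hρ _ (by simp)) hyx hc hcy
    have e2 := S.IHX ρ y c d x b hc hd' hcy.symm hdy.symm hcd (by rw [← hxy, S.inv])
      (hρ _ (by simp)) (hρ _ (by simp)) hyx.symm hb hxb.symm
    simp only [← swap_apply_apply, pow_two, Perm.mul_apply, h1, h2, h3]
    rw [e1, swap_comm c b, swap_comm d b, add_comm] at e2
    exact (add_left_cancel e2).symm

omit [Fintype V] [DecidableEq V] in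
theorem three {x a b p : V × Fin 3} (ha : a.1 = x.1) (hb : b.1 = x.1) (hp : p.1 = x.1)
    (hxa : x ≠ a) (hxb : x ≠ b) (hab : a ≠ b) : p = x ∨ p = a ∨ p = b := by
  obtain ⟨v, i⟩ := x
  obtain ⟨v1, j⟩ := a
  obtain ⟨v2, k⟩ := b
  obtain ⟨v3, l⟩ := p
  simp only at ha hb hp
  subst ha hb hp
  simp only [ne_eq, Prod.mk.injEq, true_and] at *
  omega

theorem ext_swap {D : Type*} [DecidableEq D] (ι : Fin 5 ↪ D) (i j : Fin 5) :
    Perm.viaEmbeddingHom ι (swap i j) = swap (ι i) (ι j) := by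
  ext p
  rw [Perm.viaEmbeddingHom_apply]
  by_cases hp : p ∈ Set.range ι
  · obtain ⟨k, rfl⟩ := hp
    rw [Perm.viaEmbedding_apply, ι.injective.swap_apply]
  · rw [Perm.viaEmbedding_apply_of_notMem _ _ _ hp, swap_apply_of_ne_of_ne]
    · rintro rfl; exact hp ⟨_, rfl⟩
    · rintro rfl; exact hp ⟨_, rfl⟩

theorem Sys.G4 {m : Perm (V × Fin 3)} {w : Perm (V × Fin 3) → M} (S : Sys m w)
    (φ : Perm (V × Fin 3)) (π : Perm V) (hπ : ∀ p, (φ p).1 = π p.1)
    (hw : ∀ ρ, w (φ * ρ * φ⁻¹) = -w ρ) (n : ℕ) (hn : 0 < n) (f e e' x a b x' a' b' : V × Fin 3)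
    (he : e.1 = f.1) (he' : e'.1 = f.1) (hfe : f ≠ e) (hfe' : f ≠ e') (hee : e ≠ e')
    (ha : a.1 = x.1) (hb : b.1 = x.1) (hxa : x ≠ a) (hxb : x ≠ b) (hab : a ≠ b)
    (ha' : a'.1 = x'.1) (hb' : b'.1 = x'.1) (hxa' : x' ≠ a') (hxb' : x' ≠ b') (hab' : a' ≠ b')
    (hfx : f.1 ≠ x.1) (hfx' : f.1 ≠ x'.1) (hxx : x.1 ≠ x'.1)
    (hxe : m x = e) (hxe' : m x' = e')
    (h0 : (φ ^ n) f = f) (h1 : (φ ^ n) a = a') (h2 : (φ ^ n) a' = b) (h3 : (φ ^ n) b = b')
    (h4 : (φ ^ n) b' = a)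
    (hd : ∀ i, 0 < i → i < n → ∀ z ∈ ({f.1, x.1, x'.1} : Set V),
      (π ^ i) z ∉ ({f.1, x.1, x'.1} : Set V)) :
    w 1 = 0 := by
  have ne1 : ∀ {p q : V × Fin 3}, p.1 ≠ q.1 → p ≠ q := fun h h' => h (congrArg _ h')
  have fa : f ≠ a := ne1 (ha ▸ hfx)
  have fb : f ≠ b := ne1 (hb ▸ hfx)
  have fa' : f ≠ a' := ne1 (ha' ▸ hfx')
  have fb' : f ≠ b' := ne1 (hb' ▸ hfx')
  have aa' : a ≠ a' := ne1 (ha ▸ ha' ▸ hxx)
  have ab' : a ≠ b' := ne1 (ha ▸ hb' ▸ hxx)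
  have ba' : b ≠ a' := ne1 (hb ▸ ha' ▸ hxx)
  have bb' : b ≠ b' := ne1 (hb ▸ hb' ▸ hxx)
  have xx' : x ≠ x' := ne1 hxx
  have xa' : x ≠ a' := ne1 (ha' ▸ hxx)
  have xb' : x ≠ b' := ne1 (hb' ▸ hxx)
  have ax' : a ≠ x' := ne1 (ha ▸ hxx)
  have bx' : b ≠ x' := ne1 (hb ▸ hxx)
  have fx : f ≠ x := ne1 hfx
  have fx' : f ≠ x' := ne1 hfx'
  have ea : e ≠ a := ne1 (he ▸ ha ▸ hfx)
  have eb : e ≠ b := ne1 (he ▸ hb ▸ hfx)
  have ea' : e ≠ a' := ne1 (he ▸ ha' ▸ hfx')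
  have eb' : e ≠ b' := ne1 (he ▸ hb' ▸ hfx')
  have e'a : e' ≠ a := ne1 (he' ▸ ha ▸ hfx)
  have e'b : e' ≠ b := ne1 (he' ▸ hb ▸ hfx)
  have e'a' : e' ≠ a' := ne1 (he' ▸ ha' ▸ hfx')
  have e'b' : e' ≠ b' := ne1 (he' ▸ hb' ▸ hfx')
  have ex : e ≠ x := ne1 (he ▸ hfx)
  have ex' : e ≠ x' := ne1 (he ▸ hfx')
  have e'x : e' ≠ x := ne1 (he' ▸ hfx)
  have e'x' : e' ≠ x' := ne1 (he' ▸ hfx')
  let ι : Fin 5 ↪ V × Fin 3 := ⟨![f, a, a', b, b'], by
    intro i j hij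
    fin_cases i <;> fin_cases j <;> first
      | rfl
      | exact absurd hij (by first | assumption | (apply Ne.symm; assumption))⟩
  have i0 : ι 0 = f := rfl
  have i1 : ι 1 = a := rfl
  have i2 : ι 2 = a' := rfl
  have i3 : ι 3 = b := rfl
  have i4 : ι 4 = b' := rfl
  have hfix : ∀ (σ : Perm (Fin 5)) (p : V × Fin 3), p ≠ f → p ≠ a → p ≠ a' → p ≠ b → p ≠ b' →
      Perm.viaEmbeddingHom ι σ p = p := by
    intro σ p q0 q1 q2 q3 q4
    rw [Perm.viaEmbeddingHom_apply, Perm.viaEmbedding_apply_of_notMem]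
    rintro ⟨k, rfl⟩
    fin_cases k
    exacts [q0 rfl, q1 rfl, q2 rfl, q3 rfl, q4 rfl]
  have hk : swap x x' * swap e e' * m = m * (swap x x' * swap e e') := by
    have m1 : m e = x := by rw [← hxe, S.inv]
    have m2 : m e' = x' := by rw [← hxe', S.inv]
    have c1 : m * swap x x' = swap e e' * m := by rw [mul_swap_eq_swap_mul, hxe, hxe']
    have c2 : m * swap e e' = swap x x' * m := by rw [mul_swap_eq_swap_mul, m1, m2]
    have c3 : swap x x' * swap e e' = swap e e' * swap x x' := by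
      rw [mul_swap_eq_swap_mul, swap_apply_of_ne_of_ne ex ex', swap_apply_of_ne_of_ne e'x e'x']
    rw [← mul_assoc, c1, mul_assoc (swap e e'), c2, c3, mul_assoc]
  have hh : ∀ p, ((swap a a' * swap b b' * swap x x') p).1 = swap x.1 x'.1 p.1 := by
    intro p
    simp only [Perm.mul_apply]
    by_cases hp : p.1 = x.1
    · rw [hp, swap_apply_left]
      rcases three ha hb hp hxa hxb hab with rfl | rfl | rfl
      · rw [swap_apply_left, swap_apply_of_ne_of_ne bx'.symm hxb',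
          swap_apply_of_ne_of_ne ax'.symm hxa']
      · rw [swap_apply_of_ne_of_ne hxa.symm ax', swap_apply_of_ne_of_ne hab ab', swap_apply_left,
          ha']
      · rw [swap_apply_of_ne_of_ne hxb.symm bx', swap_apply_left,
          swap_apply_of_ne_of_ne ab'.symm hab'.symm, hb']
    · by_cases hp' : p.1 = x'.1
      · rw [hp', swap_apply_right]
        rcases three ha' hb' hp' hxa' hxb' hab' with rfl | rfl | rfl
        · rw [swap_apply_right, swap_apply_of_ne_of_ne hxb xb', swap_apply_of_ne_of_ne hxa xa']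
        · rw [swap_apply_of_ne_of_ne xa'.symm hxa'.symm, swap_apply_of_ne_of_ne ba'.symm hab',
            swap_apply_right, ha]
        · rw [swap_apply_of_ne_of_ne xb'.symm hxb'.symm, swap_apply_right,
            swap_apply_of_ne_of_ne hab.symm ba', hb]
      · have q1 : p ≠ b := ne1 (hb ▸ hp)
        have q2 : p ≠ b' := ne1 (hb' ▸ hp')
        have q3 : p ≠ a := ne1 (ha ▸ hp)
        have q4 : p ≠ a' := ne1 (ha' ▸ hp')
        rw [swap_apply_of_ne_of_ne hp hp', swap_apply_of_ne_of_ne (ne1 hp) (ne1 hp'),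
          swap_apply_of_ne_of_ne q1 q2, swap_apply_of_ne_of_ne q3 q4]
  have hR : ∀ ρ : Perm (V × Fin 3), ρ x = x → ρ x' = x' → ρ e = e → ρ e' = e' →
      w (swap a a' * swap b b' * ρ) = -w ρ := by
    intro ρ r1 r2 r3 r4
    have c1 : ρ * (swap x x' * swap e e') = swap x x' * (swap e e' * ρ) := by
      rw [← mul_assoc, mul_swap_eq_swap_mul ρ x x', r1, r2, mul_assoc,
        mul_swap_eq_swap_mul ρ e e', r3, r4]
    rw [← S.C _ hk, mul_assoc, c1, ← mul_assoc, S.E _ _ hh, S.AS _ _ hee (he.trans he'.symm)]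
    simp [aa', bb', xx', hxx]
  refine norm_vert w φ (swap f a * swap a a') π hπ {f.1, x.1, x'.1} n 4 hn hw ?_ ?_ hd
    (by decide) ?_ ?_
  · intro p hp
    simp only [Set.mem_insert_iff, Set.mem_singleton_iff, not_or] at hp
    have q3 : p ≠ a := ne1 (ha ▸ hp.2.1)
    have q4 : p ≠ a' := ne1 (ha' ▸ hp.2.2)
    rw [Perm.mul_apply, swap_apply_of_ne_of_ne q3 q4, swap_apply_of_ne_of_ne (ne1 hp.1) q3]
  · rintro z (rfl | rfl | rfl)
    · left; rw [← pow_fst hπ, h0]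
    · right; right; rw [← ha, ← pow_fst hπ, h1, ha']; rfl
    · right; left; rw [← ha', ← pow_fst hπ, h2, hb]
  · intro ρ hρ
    have rx := hρ x (by simp)
    have rx' := hρ x' (by simp)
    have re := hρ e (by simp [he])
    have re' := hρ e' (by simp [he'])
    have qx : ∀ σ, (Perm.viaEmbeddingHom ι σ * ρ) x = x := fun σ => by
      rw [Perm.mul_apply, rx, hfix σ x fx.symm hxa xa' hxb xb']
    have qx' : ∀ σ, (Perm.viaEmbeddingHom ι σ * ρ) x' = x' := fun σ => by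
      rw [Perm.mul_apply, rx', hfix σ x' fx'.symm ax'.symm hxa' bx'.symm hxb']
    have qe : ∀ σ, (Perm.viaEmbeddingHom ι σ * ρ) e = e := fun σ => by
      rw [Perm.mul_apply, re, hfix σ e hfe.symm ea ea' eb eb']
    have qe' : ∀ σ, (Perm.viaEmbeddingHom ι σ * ρ) e' = e' := fun σ => by
      rw [Perm.mul_apply, re', hfix σ e' hfe'.symm e'a e'a' e'b e'b']
    have key := five (fun σ => w (Perm.viaEmbeddingHom ι σ * ρ))
      (fun σ => by
        simp only [map_mul, ext_swap, i1, i3, mul_assoc]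
        exact S.AS _ _ hab (ha.trans hb.symm) _)
      (fun σ => by
        simp only [map_mul, ext_swap, i2, i4, mul_assoc]
        exact S.AS _ _ hab' (ha'.trans hb'.symm) _)
      (fun σ => by
        simp only [map_mul, ext_swap, i1, i2, i3, i4]
        rw [mul_assoc]
        exact hR _ (qx σ) (qx' σ) (qe σ) (qe' σ))
      (fun σ => by
        simp only [map_mul, ext_swap, i0, i1, i3, mul_assoc]
        exact S.IHX _ x a b e f ha hb hxa hxb hab hxe (qx σ) (qe σ) (he ▸ hfx) he.symm hfe)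
      (fun σ => by
        simp only [map_mul, ext_swap, i0, i2, i4, mul_assoc]
        exact S.IHX _ x' a' b' e' f ha' hb' hxa' hxb' hab' hxe' (qx' σ) (qe' σ) (he' ▸ hfx')
          he'.symm hfe')
    simp only [map_mul, map_one, one_mul, ext_swap, i0, i1, i2, i3, i4] at key
    have cj : ∀ (g : Perm (V × Fin 3)), g * (swap f a * swap a a') * g⁻¹ =
        swap (g f) (g a) * swap (g a) (g a') := fun g => by
      rw [swap_apply_apply, swap_apply_apply]; group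
    rw [key]
    simp only [sum_range_succ, range_zero, sum_empty, zero_add, cj, pow_succ, pow_zero, one_mul,
      Perm.mul_apply, Perm.one_apply, h0, h1, h2, h3, h4]
  · intro ρ _
    have cj : ∀ (g : Perm (V × Fin 3)), g * (swap f a * swap a a') * g⁻¹ =
        swap (g f) (g a) * swap (g a) (g a') := fun g => by
      rw [swap_apply_apply, swap_apply_apply]; group
    simp only [cj, pow_succ, pow_zero, one_mul, Perm.mul_apply, h0, h1, h2, h3, h4]

end Pool.Agent.P.MP_647b44_gt
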