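import Pool.Agent.P.MP_647b44_gt.Cases

/-! A symmetry reversing an odd number of vertex orientations forces vanishing. -/

namespace Pool.Agent.P.MP_647b44_gt

open Equiv Finset

variable {V : Type*} [Fintype V] [DecidableEq V] {M : Type*} [AddCommGroup M]

theorem parity (π : Perm V) (s : V → ℤˣ) (τ : V → V) (E : V → ℤˣ)
    (hE : ∀ v, E v = ∏ u ∈ univ.filter (fun u => π.SameCycle v u), s u)
    (h : ∀ v, E v ≠ 1 → E (τ v) ≠ 1 ∧ ¬π.SameCycle v (τ v) ∧ τ (τ v) = v ∧ τ (π v) = π (τ v)) :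
    ∏ v, s v = 1 := by
  classical
  have hinv : ∀ v u, π.SameCycle v u → E v = E u := by
    intro v u hvu
    rw [hE, hE]
    congr 1
    ext z
    simp only [mem_filter, mem_univ, true_and]
    exact ⟨fun h => hvu.symm.trans h, fun h => hvu.trans h⟩
  have hτ : ∀ v u, E v ≠ 1 → π.SameCycle v u → π.SameCycle (τ v) (τ u) := by
    intro v u hv hvu
    obtain ⟨i, -, rfl⟩ := hvu.exists_pow_eq'
    have : ∀ i : ℕ, τ ((π ^ i) v) = (π ^ i) (τ v) := by
      intro i
      induction i with
      | zero => simp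
      | succ i ih =>
        have hs : π.SameCycle v ((π ^ i) v) := ⟨i, by simp⟩
        rw [pow_succ', Perm.mul_apply, Perm.mul_apply, (h _ (hinv _ _ hs ▸ hv)).2.2.2, ih]
    rw [this]
    exact ⟨i, by simp⟩
  let St := Perm.SameCycle.setoid π
  have hq : ∀ v u, Quotient.mk St v = Quotient.mk St u ↔ π.SameCycle v u := fun v u =>
    Quotient.eq
  have hout : ∀ v, π.SameCycle (Quotient.mk St v).out v := fun v =>
    (hq _ _).1 (Quotient.out_eq _)
  rw [← Finset.prod_fiberwise univ (Quotient.mk St) s]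
  have h1 : ∀ q : Quotient St, ∏ i ∈ univ.filter (fun i => Quotient.mk St i = q), s i =
      E q.out := by
    intro q
    rw [hE]
    congr 1
    ext z
    simp only [mem_filter, mem_univ, true_and]
    rw [← hq, Quotient.out_eq, eq_comm]
  simp only [h1]
  refine Finset.prod_involution
    (fun q _ => if E q.out = 1 then q else Quotient.mk St (τ q.out)) ?_ ?_ (by simp) ?_
  · intro q _
    by_cases hq1 : E q.out = 1
    · simp [hq1]
    · rw [if_neg hq1, hinv _ _ (hout _)]
      have h2 := (h _ hq1).1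
      rw [(Int.units_eq_one_or _).resolve_left hq1, (Int.units_eq_one_or _).resolve_left h2]
      simp
  · intro q _ hq1 h2
    rw [if_neg hq1] at h2
    exact (h _ hq1).2.1 ((hq _ _).1 (by rw [h2, Quotient.out_eq]))
  · intro q _
    by_cases hq1 : E q.out = 1
    · simp [hq1]
    · have h2 : E (Quotient.mk St (τ q.out)).out ≠ 1 := by
        rw [hinv _ _ (hout _)]; exact (h _ hq1).1
      simp only [if_neg hq1, if_neg h2]
      have h3 := hτ _ _ h2 (hout _)
      rw [(h _ hq1).2.2.1] at h3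
      rw [(hq _ _).2 h3, Quotient.out_eq]

/-- The action of the `i`-th power of a symmetry on the three darts at a vertex. -/
def coc {V : Type*} (π : Perm V) (g : V → Perm (Fin 3)) : ℕ → V → Perm (Fin 3)
  | 0, _ => 1
  | i + 1, v => g ((π ^ i) v) * coc π g i v

omit [Fintype V] [DecidableEq V] in
theorem pow_coc {φ : Perm (V × Fin 3)} {π : Perm V} {g : V → Perm (Fin 3)}
    (hφ : ∀ v j, φ (v, j) = (π v, g v j)) (i : ℕ) (v : V) (j : Fin 3) :
    (φ ^ i) (v, j) = ((π ^ i) v, coc π g i v j) := by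
  induction i with
  | zero => simp [coc]
  | succ i ih => rw [pow_succ', pow_succ', Perm.mul_apply, ih, hφ]; rfl

omit [Fintype V] [DecidableEq V] in
theorem sign_coc (π : Perm V) (g : V → Perm (Fin 3)) (i : ℕ) (v : V) :
    Perm.sign (coc π g i v) = ∏ k ∈ range i, Perm.sign (g ((π ^ k) v)) := by
  induction i with
  | zero => simp [coc]
  | succ i ih => rw [coc, Perm.sign_mul, ih, prod_range_succ, mul_comm]

omit [DecidableEq V] in
theorem prod_sign_coc (π : Perm V) (g : V → Perm (Fin 3)) (i : ℕ) :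
    ∏ v, Perm.sign (coc π g i v) = (∏ v, Perm.sign (g v)) ^ i := by
  induction i with
  | zero => simp [coc]
  | succ i ih =>
    simp only [coc, Perm.sign_mul, prod_mul_distrib, ih]
    rw [Equiv.prod_comp (π ^ i) (fun v => Perm.sign (g v)), pow_succ']

omit [DecidableEq V] in
theorem exists_period (π : Perm V) :
    ∃ N : V → ℕ, (∀ v, 0 < N v) ∧ ∀ v i, (π ^ i) v = v ↔ N v ∣ i := by
  refine ⟨fun v => MulAction.period π v, fun v => ?_, fun v i => ?_⟩
  · exact MulAction.period_pos_of_orderOf_pos (orderOf_pos π) v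
  · exact MulAction.pow_smul_eq_iff_period_dvd (m := π) (a := v)

theorem s3_fix : ∀ l : Perm (Fin 3), l * l = 1 → ∃ i, l i = i := by decide

theorem s3_swap : ∀ l : Perm (Fin 3), l * l = 1 → l ≠ 1 → ∀ i, l i = i →
    Perm.sign l ≠ 1 ∧ (∀ i', l i' = i' → i' = i) ∧
      ∃ j k, i ≠ j ∧ i ≠ k ∧ j ≠ k ∧ l j = k ∧ l k = j := by decide

theorem s3_third : ∀ i j : Fin 3, ∃ k, k ≠ i ∧ k ≠ j := by decide

theorem s3_two : ∀ l : Perm (Fin 3), l * l = 1 ∨ l ^ 3 = 1 := by decide

theorem Sys.main2 {m : Perm (V × Fin 3)} {w : Perm (V × Fin 3) → M} (S : Sys m w)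
    (φ : Perm (V × Fin 3)) (π : Perm V) (g : V → Perm (Fin 3))
    (hφ : ∀ v j, φ (v, j) = (π v, g v j)) (hm : φ * m = m * φ)
    (hw : ∀ ρ, w (φ * ρ * φ⁻¹) = -w ρ) (hg : ∏ v, Perm.sign (g v) = -1)
    (k : ℕ) (hk : φ ^ 2 ^ k = 1) : w 1 = 0 := by
  by_contra hw1
  obtain ⟨N, hN0, hN⟩ := exists_period π
  have hπ : ∀ p, (φ p).1 = π p.1 := fun p => by rw [show p = (p.1, p.2) from rfl, hφ]
  have hf := pow_fst hπ
  set l : V → Perm (Fin 3) := fun v => coc π g (N v) v with hl
  have hlv : ∀ v j, (φ ^ N v) (v, j) = (v, l v j) := fun v j => by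
    rw [pow_coc hφ, (hN v _).2 dvd_rfl]
  have hlp : ∀ v t j, (φ ^ (N v * t)) (v, j) = (v, (l v ^ t) j) := by
    intro v t j
    induction t with
    | zero => simp
    | succ t ih => rw [Nat.mul_succ, add_comm, pow_add, Perm.mul_apply, ih, hlv, pow_succ']; rfl
  have hl2 : ∀ v, l v * l v = 1 := by
    intro v
    rcases s3_two (l v) with h | h
    · exact h
    · have h2 : l v ^ 2 ^ k = 1 := by
        ext j
        have := hlp v (2 ^ k) j
        rw [mul_comm, pow_mul, hk, one_pow] at this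
        exact congrArg (fun p : V × Fin 3 => (p.2 : ℕ)) this.symm
      have h3 : l v ^ Nat.gcd 3 (2 ^ k) = 1 := pow_gcd_eq_one.2 ⟨h, h2⟩
      rw [Nat.Coprime.gcd_eq_one (Nat.Coprime.pow_right k (by decide)), pow_one] at h3
      rw [h3, mul_one]
  choose ax hax using fun v => s3_fix (l v) (hl2 v)
  have hcm : ∀ t p, (φ ^ t) (m p) = m ((φ ^ t) p) := by
    intro t p
    have : Commute φ m := hm
    rw [← Perm.mul_apply, (this.pow_left t).eq, Perm.mul_apply]
  have hcc : ∀ s t p, (φ ^ s) ((φ ^ t) p) = (φ ^ t) ((φ ^ s) p) := by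
    intro s t p
    rw [← Perm.mul_apply, ← pow_add, add_comm, pow_add, Perm.mul_apply]
  have hadd : ∀ s t v, (π ^ s) ((π ^ t) v) = (π ^ (s + t)) v := by
    intro s t v
    rw [← Perm.mul_apply, ← pow_add]
  have hNpow : ∀ v t, N ((π ^ t) v) = N v := by
    intro v t
    have : ∀ i, N ((π ^ t) v) ∣ i ↔ N v ∣ i := by
      intro i
      rw [← hN, ← hN, hadd, add_comm, ← hadd]
      exact (π ^ t).injective.eq_iff
    exact Nat.dvd_antisymm ((this _).2 dvd_rfl) ((this _).1 dvd_rfl)
  have hne : ∀ v i, 0 < i → i < N v → (π ^ i) v ≠ v := fun v i h0 hi h =>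
    absurd (Nat.le_of_dvd h0 ((hN v i).1 h)) (by omega)
  have hne2 : ∀ v i j, i < j → j < N v → (π ^ i) v ≠ (π ^ j) v := by
    intro v i j hij hj h
    rw [show j = i + (j - i) by omega, ← hadd] at h
    exact hne v (j - i) (by omega) (by omega) ((π ^ i).injective h).symm
  have hH2 : ∀ p : V × Fin 3, (φ ^ N p.1) ((φ ^ N p.1) p) = p := by
    rintro ⟨v, j⟩
    rw [hlv, hlv, ← Perm.mul_apply, hl2]; rfl
  have huniq : ∀ p : V × Fin 3, l p.1 ≠ 1 → (φ ^ N p.1) p = p → p = (p.1, ax p.1) := by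
    rintro ⟨v, j⟩ h1 h2
    rw [hlv] at h2
    exact Prod.ext rfl ((s3_swap _ (hl2 v) h1 _ (hax v)).2.1 j (congrArg Prod.snd h2))
  have htw : ∀ v, l v ≠ 1 ↔ ∃ p : V × Fin 3, p.1 = v ∧ (φ ^ N v) p ≠ p := by
    intro v
    constructor
    · intro h
      by_contra hc
      push Not at hc
      apply h
      ext j
      have := hc (v, j) rfl
      rw [hlv] at this
      exact congrArg (fun p : V × Fin 3 => (p.2 : ℕ)) this
    · rintro ⟨⟨v', j⟩, rfl, h⟩ h1
      rw [hlv, h1] at h
      exact h rfl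
  have htwp : ∀ v t, l v ≠ 1 → l ((π ^ t) v) ≠ 1 := by
    intro v t h
    obtain ⟨p, rfl, hp⟩ := (htw v).1 h
    refine (htw _).2 ⟨(φ ^ t) p, hf _ _, ?_⟩
    rw [hNpow, hcc]
    exact fun h => hp ((φ ^ t).injective h)
  have haxp : ∀ v t, l v ≠ 1 → (φ ^ t) (v, ax v) = ((π ^ t) v, ax ((π ^ t) v)) := by
    intro v t h
    have := huniq ((φ ^ t) (v, ax v)) (by rw [hf]; exact htwp v t h)
      (by rw [hf, hNpow, hcc, hlv, hax])
    rw [this, hf]
  have hE : ∀ v, Perm.sign (l v) =
      ∏ u ∈ univ.filter (fun u => π.SameCycle v u), Perm.sign (g u) := by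
    intro v
    rw [hl, sign_coc]
    refine Finset.prod_bij (fun i _ => (π ^ i) v) ?_ ?_ ?_ (fun _ _ => rfl)
    · intro i _
      simp only [mem_filter, mem_univ, true_and]
      exact ⟨i, by simp⟩
    · intro i hi j hj hij
      rw [mem_range] at hi hj
      rcases lt_trichotomy i j with h | h | h
      · exact absurd hij (hne2 v i j h hj)
      · exact h
      · exact absurd hij.symm (hne2 v j i h hi)
    · intro u hu
      simp only [mem_filter, mem_univ, true_and] at hu
      obtain ⟨i, -, rfl⟩ := hu.exists_pow_eq'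
      refine ⟨i % N v, mem_range.2 (Nat.mod_lt _ (hN0 v)), ?_⟩
      conv_rhs => rw [← Nat.mod_add_div i (N v), ← hadd, (hN v _).2 (dvd_mul_right _ _)]
  have key := parity π (fun v => Perm.sign (g v)) (fun v => (m (v, ax v)).1)
    (fun v => Perm.sign (l v)) hE ?_
  · rw [key] at hg
    exact absurd hg (by decide)
  intro v hv
  have hlv1 : l v ≠ 1 := fun h => hv (by simp [h])
  obtain ⟨-, -, j, k', hij, hik, hjk, hj, hk'⟩ := s3_swap _ (hl2 v) hlv1 _ (hax v)
  set x : V × Fin 3 := (v, ax v) with hx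
  set a : V × Fin 3 := (v, j) with ha
  set b : V × Fin 3 := (v, k') with hb
  have hxa : x ≠ a := fun h => hij (congrArg Prod.snd h)
  have hxb : x ≠ b := fun h => hik (congrArg Prod.snd h)
  have hab : a ≠ b := fun h => hjk (congrArg Prod.snd h)
  have px : (φ ^ N v) x = x := by rw [hx, hlv, hax]
  have pa : (φ ^ N v) a = b := by rw [ha, hlv, hj]
  have pb : (φ ^ N v) b = a := by rw [hb, hlv, hk']
  obtain ⟨y, hy⟩ : ∃ y, m x = y := ⟨_, rfl⟩
  have my : m y = x := by rw [← hy, S.inv]
  have py : (φ ^ N v) y = y := by rw [← hy, hcm, px]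
  have fyx : ∀ t, (φ ^ t) y = y → (φ ^ t) x = x := fun t h => by rw [← my, hcm, h]
  have fxv : ∀ t, (φ ^ t) x = x → N v ∣ t := fun t h => (hN v t).1 (by
    have := hf t x
    rw [h] at this
    exact this.symm)
  have hyx : y.1 ≠ x.1 := by
    intro h
    rcases three (x := x) (a := a) (b := b) rfl rfl h hxa hxb hab with h1 | h1 | h1
    · exact S.ne x (hy.trans h1)
    · rw [h1, pa] at py; exact hab py.symm
    · rw [h1, pb] at py; exact hab py
  have huv : N y.1 ∣ N v := (hN _ _).1 (by rw [← hf, py])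
  rw [hy]
  by_cases hA : (φ ^ N y.1) y = y
  · have hNN : N y.1 = N v := Nat.dvd_antisymm huv (fxv _ (fyx _ hA))
    by_cases hB : l y.1 = 1
    · exfalso
      apply hw1
      obtain ⟨c2, hc2, -⟩ := s3_third y.2 y.2
      have hno : ∀ i, (π ^ i) v ≠ y.1 := fun i h => htwp v i hlv1 (h ▸ hB)
      refine S.G1 φ π hπ hw (N v) (hN0 v) x a b y (y.1, c2) rfl rfl hxa hxb hab hy hyx rfl
        (fun h => hc2 (congrArg Prod.snd h)) pa pb (by rw [← hNN, hlv, hB]; rfl) ?_
      intro i h0 hi z hz h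
      simp only [Set.mem_insert_iff, Set.mem_singleton_iff] at hz h
      rcases hz with hz | hz <;> rw [hz] at h <;> rcases h with h | h
      · exact hne v i h0 hi h
      · exact hno i h
      · refine hno ((N v - 1) * i) ?_
        change (π ^ i) y.1 = v at h
        conv_lhs => rw [← h, hadd]
        refine (hN _ _).2 ⟨i, ?_⟩
        rw [hNN, h]
        have := hN0 v
        obtain ⟨n, hn⟩ : ∃ n, N v = n + 1 := ⟨N v - 1, by omega⟩
        rw [hn]; simp; ring
      · exact hne y.1 i h0 (hNN ▸ hi) h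
    · have hya := huniq y hB hA
      refine ⟨(s3_swap _ (hl2 _) hB _ (hax _)).1, ?_, by rw [← hya, my], ?_⟩
      · intro hs
        apply hw1
        obtain ⟨t0, -, ht0⟩ := hs.exists_pow_eq'
        obtain ⟨t, htN, ht⟩ : ∃ t, t < N v ∧ (π ^ t) v = y.1 := by
          refine ⟨t0 % N v, Nat.mod_lt _ (hN0 v), ?_⟩
          rw [← ht0]
          conv_rhs => rw [← Nat.mod_add_div t0 (N v), ← hadd, (hN v _).2 (dvd_mul_right _ _)]
        have ht1 : 0 < t := by
          rcases Nat.eq_zero_or_pos t with h | h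
          · subst h; exact absurd ht.symm hyx
          · exact h
        have tx : (φ ^ t) x = y := by rw [hx, haxp v t hlv1, ht, ← hya]
        have ty : (φ ^ t) y = x := by rw [← hy, hcm, tx, my]
        have h2t : N v = t + t := by
          obtain ⟨r, hr⟩ := fxv (t + t) (by rw [pow_add, Perm.mul_apply, tx, ty])
          have : r = 1 := by
            rcases r with _ | _ | r
            · omega
            · rfl
            · nlinarith
          rw [hr, this, mul_one]
        have tt : ∀ p, (φ ^ t) ((φ ^ t) p) = (φ ^ N v) p := fun p => by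
          rw [h2t, pow_add, Perm.mul_apply]
        refine S.G2 φ π hπ hw t ht1 x a b y ((φ ^ t) a) ((φ ^ t) b) rfl rfl hxa hxb hab hy hyx
          (by rw [hf, ← ht]) (by rw [hf, ← ht]) ?_ ?_ ?_ rfl (by rw [tt, pa]) rfl ?_
        · rw [← tx]; exact fun h => hxa ((φ ^ t).injective h).symm
        · rw [← tx]; exact fun h => hxb ((φ ^ t).injective h).symm
        · exact fun h => hab ((φ ^ t).injective h)
        · intro i h0 hi z hz h
          simp only [Set.mem_insert_iff, Set.mem_singleton_iff] at hz h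
          rcases hz with hz | hz <;> rw [hz] at h <;> rcases h with h | h
          · exact hne v i h0 (by omega) h
          · exact hne2 v i t hi htN (h.trans ht.symm)
          · rw [← ht, hadd] at h
            exact hne v _ (by omega) (by omega) h
          · exact hne y.1 i h0 (by omega) h
      · have := haxp v 1 hlv1
        simp only [pow_one] at this
        rw [← this, ← hπ, ← hy]
        exact congrArg Prod.fst (by simpa using (hcm 1 x).symm)
  · exfalso
    apply hw1
    set n := N y.1 with hn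
    have n0 : 0 < n := hN0 _
    have ee : (φ ^ n) ((φ ^ n) y) = y := hH2 y
    have e1 : ((φ ^ n) y).1 = y.1 := by rw [hf]; exact (hN _ _).2 dvd_rfl
    have hnv : n ≠ N v := fun h => hA (h ▸ py)
    have h2n : N v = n + n := by
      obtain ⟨r, hr⟩ := fxv (n + n) (fyx _ (by rw [pow_add, Perm.mul_apply, ee]))
      obtain ⟨q, hq⟩ := huv
      have : q * r = 2 := by
        have : n * (q * r) = n * 2 := by rw [← mul_assoc, ← hq, ← hr]; ring
        exact Nat.eq_of_mul_eq_mul_left n0 this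
      have hq2 : q ∣ 2 := ⟨r, this.symm⟩
      rcases (Nat.dvd_prime Nat.prime_two).1 hq2 with h | h
      · exact absurd (by rw [hq, h, mul_one]) hnv
      · rw [hq, h]; ring
    have tt : ∀ p, (φ ^ n) ((φ ^ n) p) = (φ ^ N v) p := fun p => by
      rw [h2n, pow_add, Perm.mul_apply]
    obtain ⟨f2, hf1, hf2⟩ := s3_third y.2 ((φ ^ n) y).2
    have fe : (y.1, f2) ≠ y := fun h => hf1 (congrArg Prod.snd h)
    have fe' : (y.1, f2) ≠ (φ ^ n) y := fun h => hf2 (congrArg Prod.snd h)
    have ff : (φ ^ n) (y.1, f2) = (y.1, f2) := by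
      rcases three (x := (y.1, f2)) (a := y) (b := (φ ^ n) y) (p := (φ ^ n) (y.1, f2)) rfl e1
        (by rw [hf]; exact (hN _ _).2 dvd_rfl) fe fe' (Ne.symm hA) with h | h | h
      · exact h
      · exact absurd ((φ ^ n).injective (h.trans ee.symm)) fe'
      · exact absurd ((φ ^ n).injective h) fe
    have hno : ∀ i i', (π ^ i) v ≠ (π ^ i') y.1 := fun i i' h => hnv (by
      rw [hn, ← hNpow y.1 i', ← h, hNpow])
    have inj : ∀ {p q : V × Fin 3}, p ≠ q → (φ ^ n) p ≠ (φ ^ n) q := fun h h' =>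
      h ((φ ^ n).injective h')
    refine S.G4 φ π hπ hw n n0 (y.1, f2) y ((φ ^ n) y) x a b ((φ ^ n) x) ((φ ^ n) a) ((φ ^ n) b)
      rfl e1 fe fe' (Ne.symm hA) rfl rfl hxa hxb hab (by rw [hf, hf]) (by rw [hf, hf])
      (inj hxa) (inj hxb) (inj hab) hyx ?_ ?_ hy (by rw [← hcm, hy]) ff rfl (by rw [tt, pa]) rfl
      (by rw [tt, pb]) ?_
    · rw [hf]; exact (hno n 0).symm
    · rw [hf]; exact (hne v n n0 (by omega)).symm
    · rw [hf]
      intro i h0 hi z hz h
      simp only [Set.mem_insert_iff, Set.mem_singleton_iff] at hz h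
      rcases hz with hz | hz | hz <;> rw [hz] at h <;> rcases h with h | h | h
      · exact hne y.1 i h0 hi h
      · exact hno 0 i h.symm
      · exact hno n i h.symm
      · exact hno i 0 h
      · exact hne v i h0 (by omega) h
      · exact hne2 v i n hi (by omega) h
      · rw [hadd] at h; exact hno _ 0 h
      · rw [hadd] at h; exact hne v _ (by omega) (by omega) h
      · rw [hadd] at h; exact hne2 v n (i + n) (by omega) (by omega) h.symm

theorem Sys.main {m : Perm (V × Fin 3)} {w : Perm (V × Fin 3) → M} (S : Sys m w)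
    (π : Perm V) (g : V → Perm (Fin 3)) (hm : prodShear π g * m = m * prodShear π g)
    (hg : ∏ v, Perm.sign (g v) = -1) : w 1 = 0 := by
  set φ : Perm (V × Fin 3) := prodShear π g with hφ0
  have hφ : ∀ v j, φ (v, j) = (π v, g v j) := fun _ _ => rfl
  obtain ⟨k, q, hq, hkq⟩ := Nat.exists_eq_two_pow_mul_odd (orderOf_pos φ).ne'
  have hcm : Commute φ m := hm
  have hsg : ∏ v, Perm.sign (coc π g q v) = -1 := by rw [prod_sign_coc, hg, hq.neg_one_pow]
  refine S.main2 (φ ^ q) (π ^ q) (coc π g q) (pow_coc hφ q) (hcm.pow_left q).eq ?_ hsg k ?_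
  · intro ρ
    rw [S.C _ (hcm.pow_left q).inv_left.eq]
    have h1 : φ ^ q = prodCongrLeft (fun _ : Fin 3 => π ^ q) * prodCongrRight (coc π g q) := by
      ext ⟨v, j⟩ : 1
      rw [pow_coc hφ]; rfl
    rw [h1, mul_assoc, S.ISO, as_vert w S.AS _ (fun _ => rfl), Perm.sign_prodCongrRight, hsg]
    simp
  · rw [← pow_mul, mul_comm, ← hkq, pow_orderOf_eq_one]

end Pool.Agent.P.MP_647b44_gt
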