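import Mathlib

/-! Vertex-oriented trivalent graphs and the relations of the integral module of closed Jacobi
diagrams. -/

namespace Pool.Agent.P.MP_647b44_gt

open Equiv

/-- A vertex-oriented trivalent graph with vertex set `V` (loops and multiple edges allowed).
The half-edges at a vertex `v` are `(v,0), (v,1), (v,2)`, in this cyclic order, and the edges are
the orbits of a fixed-point-free involution of the half-edges. -/
def Diagram (V : Type*) : Type _ :=
  {m : Perm (V × Fin 3) // ∀ p, m (m p) = p ∧ m p ≠ p}

/-- Transport of the edges along a permutation `h` of the half-edges: `h p` and `h q` are joined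
in `move h D` exactly when `p` and `q` are joined in `D`. -/
def move {V : Type*} (h : Perm (V × Fin 3)) (D : Diagram V) : Diagram V :=
  ⟨h * D.1 * h⁻¹, fun p => ⟨by simp [(D.2 _).1], fun e => (D.2 (h⁻¹ p)).2 (Perm.eq_inv_iff_eq.2 e)⟩⟩

/-- The relations: renaming of vertices, AS, and IHX along an edge joining `(v,0)` to `(u,0)`. -/
def rel (V : Type*) [DecidableEq V] : Set (FreeAbelianGroup (Diagram V)) :=
  {z | ∃ (D : Diagram V) (π : Perm V),
    z = FreeAbelianGroup.of (move (prodCongr π (Equiv.refl (Fin 3))) D) - FreeAbelianGroup.of D} ∪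
  {z | ∃ (D : Diagram V) (v : V) (i j : Fin 3), i ≠ j ∧
    z = FreeAbelianGroup.of (move (swap (v, i) (v, j)) D) + FreeAbelianGroup.of D} ∪
  {z | ∃ (D : Diagram V) (v u : V), v ≠ u ∧ D.1 (v, 0) = (u, 0) ∧
    z = FreeAbelianGroup.of D - FreeAbelianGroup.of (move (swap (v, 1) (u, 1)) D) -
      FreeAbelianGroup.of (move (swap (v, 2) (u, 1)) D)}

end Pool.Agent.P.MP_647b44_gt
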