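import Pool.Agent.P.MP_647b44_gt.Core
import Pool.Agent.P.MP_647b44_gt.Defs

/-! Closed Jacobi diagrams with an orientation-reversing symmetry vanish over the integers. -/

namespace Pool.Agent.P.MP_647b44_gt

open Equiv

variable {V : Type*}

theorem move_mul (h k : Perm (V × Fin 3)) (D : Diagram V) :
    move (h * k) D = move h (move k D) := Subtype.ext (by simp [move, mul_assoc])

theorem move_one (D : Diagram V) : move 1 D = D := Subtype.ext (by simp [move])

theorem s3_ex : ∀ i j k : Fin 3, i ≠ j → i ≠ k → j ≠ k →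
    ∃ σ : Perm (Fin 3), σ 0 = i ∧ σ 1 = j ∧ σ 2 = k := by decide

theorem s3_ex' : ∀ i j : Fin 3, i ≠ j → ∃ σ : Perm (Fin 3), σ 0 = i ∧ σ 1 = j := by decide

theorem sys [Fintype V] [DecidableEq V] (D : Diagram V) :
    Sys D.1 (fun ρ => (QuotientAddGroup.mk (FreeAbelianGroup.of (move ρ D)) :
      FreeAbelianGroup (Diagram V) ⧸ AddSubgroup.closure (rel V))) := by
  set w : Perm (V × Fin 3) → FreeAbelianGroup (Diagram V) ⧸ AddSubgroup.closure (rel V) :=
    fun ρ => QuotientAddGroup.mk (FreeAbelianGroup.of (move ρ D)) with hw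
  have hz : ∀ z ∈ rel V, (QuotientAddGroup.mk z :
      FreeAbelianGroup (Diagram V) ⧸ AddSubgroup.closure (rel V)) = 0 := fun z hz =>
    (QuotientAddGroup.eq_zero_iff _).2 (AddSubgroup.subset_closure hz)
  have hAS : ∀ p q : V × Fin 3, p ≠ q → p.1 = q.1 → ∀ ρ, w (swap p q * ρ) = -w ρ := by
    rintro ⟨v, i⟩ ⟨v', j⟩ hpq h ρ
    obtain rfl : v = v' := h
    have := hz _ (Or.inl (Or.inr ⟨move ρ D, v, i, j, fun h => hpq (by rw [h]), rfl⟩))
    rw [QuotientAddGroup.mk_add, ← move_mul] at this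
    exact eq_neg_of_add_eq_zero_left this
  refine ⟨fun p => (D.2 p).1, fun p => (D.2 p).2, hAS, ?_, ?_, ?_⟩
  · intro π ρ
    have := hz _ (Or.inl (Or.inl ⟨move ρ D, π, rfl⟩))
    rw [QuotientAddGroup.mk_sub, ← move_mul, sub_eq_zero] at this
    exact this
  · intro k hk ρ
    have : move k D = D := Subtype.ext (by simp [move, hk])
    simp only [hw, move_mul, this]
  · rintro ρ ⟨v, i⟩ ⟨v1, j⟩ ⟨v2, k⟩ ⟨u, i'⟩ ⟨u1, j'⟩ ha hb hxa hxb hab hxy rx ry hyx hc hcy
    obtain rfl : v1 = v := ha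
    obtain rfl : v2 = v1 := hb
    obtain rfl : u1 = u := hc
    have hne : u1 ≠ v2 := hyx
    obtain ⟨σ, s0, s1, s2⟩ := s3_ex i j k (fun h => hxa (by rw [h])) (fun h => hxb (by rw [h]))
      (fun h => hab (by rw [h]))
    obtain ⟨σ', t0, t1⟩ := s3_ex' i' j' (fun h => hcy (by rw [h]))
    set h : Perm (V × Fin 3) := prodCongrRight fun z => if z = v2 then σ else σ' with hh
    have hv : ∀ t, h (v2, t) = (v2, σ t) := fun t => by simp [hh]
    have hu : ∀ t, h (u1, t) = (u1, σ' t) := fun t => by simp [hh, hne]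
    have hE := as_vert w hAS h (fun _ => rfl)
    have := hz _ (Or.inr ⟨move (h⁻¹ * ρ) D, v2, u1, hne.symm, ?_, rfl⟩)
    · rw [QuotientAddGroup.mk_sub, QuotientAddGroup.mk_sub, ← move_mul, ← move_mul, sub_sub,
        sub_eq_zero] at this
      have e0 : w ρ = w (h * (h⁻¹ * ρ)) := by rw [mul_inv_cancel_left]
      have e1 : ∀ p q, w (swap (h p) (h q) * ρ) = w (h * (swap p q * (h⁻¹ * ρ))) := fun p q => by
        rw [swap_apply_apply]; simp only [mul_assoc]
      rw [← s1, ← s2, ← t1, ← hv, ← hv, ← hu, e0, e1, e1, hE, hE, hE, ← smul_add]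
      exact congrArg _ this
    · have r1 : ρ⁻¹ (v2, i) = (v2, i) := by rw [Perm.inv_eq_iff_eq, rx]
      simp only [move, mul_inv_rev, inv_inv, Perm.mul_apply]
      rw [hv, s0, r1, hxy, ry, Perm.inv_eq_iff_eq, hu, t0]

theorem main [Fintype V] [DecidableEq V] (D : Diagram V) (π : Perm V) (g : V → Perm (Fin 3))
    (hD : move (prodShear π g) D = D) (hg : ∏ v, Perm.sign (g v) = -1) :
    FreeAbelianGroup.of D ∈ AddSubgroup.closure (rel V) := by
  have h1 : prodShear π g * D.1 * (prodShear π g)⁻¹ = D.1 := congrArg Subtype.val hD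
  have := (sys D).main π g (by rw [← mul_inv_eq_iff_eq_mul, h1]) hg
  rw [move_one] at this
  exact (QuotientAddGroup.eq_zero_iff _).1 this

end Pool.Agent.P.MP_647b44_gt
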