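import Mathlib

/-! Abstract lemmas for the vanishing of trivalent diagrams with an odd symmetry. -/

namespace Pool.Agent.P.MP_647b44_gt

open Equiv Finset

/-- The five-slot identity used at a vertex fixed by a symmetry of order four. -/
theorem five {M : Type*} [AddCommGroup M] (ω : Perm (Fin 5) → M)
    (hA : ∀ σ, ω (swap 1 3 * σ) = -ω σ) (hB : ∀ σ, ω (swap 2 4 * σ) = -ω σ)
    (hR : ∀ σ, ω (swap 1 2 * swap 3 4 * σ) = -ω σ)
    (hI1 : ∀ σ, ω σ = ω (swap 1 0 * σ) + ω (swap 3 0 * σ))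
    (hI2 : ∀ σ, ω σ = ω (swap 2 0 * σ) + ω (swap 4 0 * σ)) :
    ω 1 = ω (swap 0 1 * swap 1 2) + ω (swap 0 2 * swap 2 3) + ω (swap 0 3 * swap 3 4) + ω (swap 0 4 * swap 4 1) := by
  have r0 := hI1 1
  have e0 : ω (swap 1 0 * 1) = ω (swap 0 1) := by rw [show ((swap 1 0 * 1) : Perm (Fin 5)) = (swap 0 1) by decide]
  have e1 : ω (swap 3 0 * 1) = -ω (swap 0 1 * swap 1 3) := by
    rw [show ((swap 3 0 * 1) : Perm (Fin 5)) = (swap 1 3 * (swap 0 1 * swap 1 3)) by decide, hA]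
  rw [e0, e1] at r0
  have r1 := hI1 (swap 2 3)
  have e2 : ω (swap 1 0 * (swap 2 3)) = ω (swap 0 1 * swap 2 3) := by rw [show ((swap 1 0 * (swap 2 3)) : Perm (Fin 5)) = (swap 0 1 * swap 2 3) by decide]
  have e3 : ω (swap 3 0 * (swap 2 3)) = -ω (swap 0 1 * swap 1 3 * swap 2 3) := by
    rw [show ((swap 3 0 * (swap 2 3)) : Perm (Fin 5)) = (swap 1 3 * (swap 0 1 * swap 1 3 * swap 2 3)) by decide, hA]
  rw [e2, e3] at r1
  have r2 := hI2 (swap 2 3)
  have e4 : ω (swap 2 0 * (swap 2 3)) = -ω (swap 0 1 * swap 1 2 * swap 2 4 * swap 3 4) := by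
    rw [show ((swap 2 0 * (swap 2 3)) : Perm (Fin 5)) = ((swap 1 2 * swap 3 4) * (swap 0 1 * swap 1 2 * swap 2 4 * swap 3 4)) by decide, hR]
  have e5 : ω (swap 4 0 * (swap 2 3)) = ω (swap 0 1 * swap 1 2 * swap 2 4) := by
    rw [show ((swap 4 0 * (swap 2 3)) : Perm (Fin 5)) = ((swap 1 2 * swap 3 4) * (swap 1 3 * (swap 0 1 * swap 1 2 * swap 2 4))) by decide, hR, hA, neg_neg]
  rw [e4, e5] at r2
  have r3 := hI2 (swap 0 1)
  have e6 : ω (swap 2 0 * (swap 0 1)) = ω (swap 0 1 * swap 1 2) := by rw [show ((swap 2 0 * (swap 0 1)) : Perm (Fin 5)) = (swap 0 1 * swap 1 2) by decide]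
  have e7 : ω (swap 4 0 * (swap 0 1)) = -ω (swap 0 1 * swap 1 2 * swap 2 4) := by
    rw [show ((swap 4 0 * (swap 0 1)) : Perm (Fin 5)) = (swap 2 4 * (swap 0 1 * swap 1 2 * swap 2 4)) by decide, hB]
  rw [e6, e7] at r3
  have r4 := hI2 (swap 0 1 * swap 1 3 * swap 2 3)
  have e8 : ω (swap 2 0 * (swap 0 1 * swap 1 3 * swap 2 3)) = ω (swap 0 1 * swap 1 3) := by rw [show ((swap 2 0 * (swap 0 1 * swap 1 3 * swap 2 3)) : Perm (Fin 5)) = (swap 0 1 * swap 1 3) by decide]
  have e9 : ω (swap 4 0 * (swap 0 1 * swap 1 3 * swap 2 3)) = -ω (swap 0 1 * swap 1 3 * swap 3 4) := by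
    rw [show ((swap 4 0 * (swap 0 1 * swap 1 3 * swap 2 3)) : Perm (Fin 5)) = (swap 2 4 * (swap 0 1 * swap 1 3 * swap 3 4)) by decide, hB]
  rw [e8, e9] at r4
  have e11 : ω (swap 0 2 * swap 2 3) = -ω (swap 0 1 * swap 1 2 * swap 2 4 * swap 3 4) := by
    rw [show ((swap 0 2 * swap 2 3) : Perm (Fin 5)) = ((swap 1 2 * swap 3 4) * (swap 0 1 * swap 1 2 * swap 2 4 * swap 3 4)) by decide, hR]
  have e12 : ω (swap 0 3 * swap 3 4) = -ω (swap 0 1 * swap 1 3 * swap 3 4) := by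
    rw [show ((swap 0 3 * swap 3 4) : Perm (Fin 5)) = (swap 1 3 * (swap 0 1 * swap 1 3 * swap 3 4)) by decide, hA]
  have e13 : ω (swap 0 4 * swap 4 1) = -ω (swap 0 1 * swap 2 3) := by
    rw [show ((swap 0 4 * swap 4 1) : Perm (Fin 5)) = ((swap 1 2 * swap 3 4) * (swap 2 4 * (swap 1 3 * (swap 0 1 * swap 2 3)))) by decide, hR, hB, hA, neg_neg]
  rw [e11, e12, e13]
  linear_combination (norm := abel) r0 - r1 + r2 + r3 + r4


/-- Product of the conjugates of `s` at the places `a, a+1, …`. -/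
def LP {D : Type*} (φ s : Perm D) (n a m r : ℕ) (j : Fin m → Fin r) : Perm D :=
  (List.ofFn fun i : Fin m =>
    φ ^ (a + i + n * j i) * s * (φ ^ (a + i + n * j i))⁻¹).prod

theorem LP_cons {D : Type*} (φ s : Perm D) (n a m r : ℕ) (j0 : Fin r) (j : Fin m → Fin r) :
    LP φ s n a (m + 1) r (Fin.cons j0 j) =
      φ ^ (a + n * j0) * s * (φ ^ (a + n * j0))⁻¹ * LP φ s n (a + 1) m r j := by
  unfold LP
  rw [List.ofFn_succ, List.prod_cons]
  congr 3
  funext i
  simp only [Fin.cons_succ, Fin.val_succ]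
  rw [show a + (i + 1) + n * j i = a + 1 + i + n * j i by ring]

theorem LP_snoc {D : Type*} (φ s : Perm D) (n a m r : ℕ) (j0 : Fin r) (j : Fin m → Fin r) :
    LP φ s n a (m + 1) r (Fin.snoc j j0) =
      LP φ s n a m r j * (φ ^ (a + m + n * j0) * s * (φ ^ (a + m + n * j0))⁻¹) := by
  unfold LP
  rw [List.ofFn_succ', List.concat_eq_append, List.prod_append]
  simp

theorem LP_conj {D : Type*} (φ s : Perm D) (n a m r : ℕ) (j : Fin m → Fin r) :
    φ * LP φ s n a m r j * φ⁻¹ = LP φ s n (a + 1) m r j := by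
  induction m generalizing a with
  | zero => simp [LP]
  | succ m ih =>
    rw [← Fin.cons_self_tail j, LP_cons, LP_cons, ← ih (a + 1),
      show a + 1 + n * j 0 = (a + n * j 0) + 1 by ring, pow_succ']
    group

theorem norm_lemma {D M : Type*} [AddCommGroup M] (w : Perm D → M) (φ s : Perm D) (K : Set D)
    (n r : ℕ) (hn : 0 < n)
    (hw : ∀ ρ, w (φ * ρ * φ⁻¹) = -w ρ)
    (hs : ∀ x, x ∉ K → s x = x)
    (hK : ∀ x ∈ K, (φ ^ n) x ∈ K)
    (hd : ∀ i, 0 < i → i < n → ∀ x ∈ K, (φ ^ i) x ∉ K)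
    (hr : Even r)
    (hloc : ∀ ρ : Perm D, (∀ x ∈ K, ρ x = x) →
      w ρ = ∑ j ∈ range r, w (φ ^ (n * j) * s * (φ ^ (n * j))⁻¹ * ρ))
    (hwrap : ∀ ρ : Perm D, (∀ x ∈ K, ρ x = x) →
      w (φ ^ (n * r) * s * (φ ^ (n * r))⁻¹ * ρ) = w (s * ρ)) : w 1 = 0 := by
  have hKj : ∀ j, ∀ x ∈ K, (φ ^ (n * j)) x ∈ K := by
    intro j
    induction j with
    | zero => simp
    | succ j ih =>
      intro x hx
      rw [Nat.mul_succ, add_comm, pow_add, Perm.mul_apply]
      exact hK _ (ih x hx)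
  have hS0 : ∀ j x, x ∉ K → (φ ^ (n * j) * s * (φ ^ (n * j))⁻¹) x = x := by
    intro j x hx
    have : (φ ^ (n * j))⁻¹ x ∉ K := fun h => hx (by simpa using hKj j _ h)
    rw [Perm.mul_apply, Perm.mul_apply, hs _ this]; simp
  have hSi : ∀ i j, 0 < i → i < n → ∀ x ∈ K,
      (φ ^ (i + n * j) * s * (φ ^ (i + n * j))⁻¹) x = x := by
    intro i j h0 hi x hx
    have : (φ ^ (i + n * j))⁻¹ x ∉ K := by
      intro h
      have h2 := hd i h0 hi _ (hKj j _ h)
      rw [← Perm.mul_apply, ← pow_add] at h2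
      exact h2 (by simpa using hx)
    rw [Perm.mul_apply, Perm.mul_apply, hs _ this]; simp
  have hL : ∀ m a, 0 < a → a + m ≤ n → ∀ j : Fin m → Fin r, ∀ x ∈ K,
      LP φ s n a m r j x = x := by
    intro m
    induction m with
    | zero => intro a _ _ j x _; simp [LP]
    | succ m ih =>
      intro a ha ham j x hx
      rw [← Fin.cons_self_tail j, LP_cons, Perm.mul_apply, ih (a + 1) (by omega) (by omega) _ x hx]
      exact hSi a _ ha (by omega) x hx
  have hw1 : w 1 = -w 1 := by simpa using hw 1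
  have hexp : ∀ m, m ≤ n → w 1 = ∑ j : Fin m → Fin r, w (LP φ s n 0 m r j) := by
    intro m
    induction m with
    | zero => intro _; simp [LP]
    | succ m ih =>
      intro hm
      rw [← (Fin.consEquiv fun _ : Fin (m + 1) => Fin r).sum_comp, Fintype.sum_prod_type,
        Finset.sum_comm, hw1, ih (by omega), ← Finset.sum_neg_distrib]
      refine Finset.sum_congr rfl fun j _ => ?_
      rw [← hw, LP_conj, hloc _ (hL m 1 one_pos (by omega) j), Finset.sum_range]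
      refine Finset.sum_congr rfl fun j0 _ => ?_
      have := LP_cons φ s n 0 m r j0 j
      simp only [zero_add] at this ⊢
      rw [← this]
      rfl
  obtain ⟨m, rfl⟩ : ∃ m, n = m + 1 := ⟨n - 1, by omega⟩
  set par : ∀ k, (Fin k → Fin r) → ZMod 2 := fun k j => ∑ i, ((j i : ℕ) : ZMod 2) with hpar
  set A : ZMod 2 → M := fun ε => ∑ j : Fin (m + 1) → Fin r,
    if par _ j = ε then w (LP φ s (m + 1) 0 (m + 1) r j) else 0 with hA
  have hsum : w 1 = A 0 + A 1 := by
    rw [hexp (m + 1) le_rfl, hA, ← Finset.sum_add_distrib]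
    refine Finset.sum_congr rfl fun j _ => ?_
    have : ∀ z : ZMod 2, z = 0 ∨ z = 1 := by decide
    rcases this (par _ j) with h | h <;> simp [h]
  have hshift : A 1 = -A 0 := by
    have e1 : A 1 = ∑ j : Fin m → Fin r, ∑ j0 ∈ range r,
        if par _ j + (j0 : ZMod 2) = 1 then
          w (φ ^ ((m + 1) * j0) * s * (φ ^ ((m + 1) * j0))⁻¹ * LP φ s (m + 1) 1 m r j) else 0 := by
      simp only [hA]
      rw [← (Fin.consEquiv fun _ : Fin (m + 1) => Fin r).sum_comp, Fintype.sum_prod_type,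
        Finset.sum_comm]
      refine Finset.sum_congr rfl fun j _ => ?_
      rw [Finset.sum_range]
      refine Finset.sum_congr rfl fun j0 _ => ?_
      have h1 := LP_cons φ s (m + 1) 0 m r j0 j
      simp only [zero_add] at h1
      have h2 : par _ (Fin.cons j0 j : Fin (m + 1) → Fin r) = par _ j + ((j0 : ℕ) : ZMod 2) := by
        simp [hpar, Fin.sum_univ_succ, add_comm]
      rw [← h1, ← h2]
      rfl
    have e0 : -A 0 = ∑ j : Fin m → Fin r, ∑ j0 ∈ range r,
        if par _ j + ((j0 + 1 : ℕ) : ZMod 2) = 1 then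
          w (φ ^ ((m + 1) * (j0 + 1)) * s * (φ ^ ((m + 1) * (j0 + 1)))⁻¹ *
            LP φ s (m + 1) 1 m r j) else 0 := by
      simp only [hA]
      rw [← Finset.sum_neg_distrib,
        ← (Fin.snocEquiv fun _ : Fin (m + 1) => Fin r).sum_comp, Fintype.sum_prod_type,
        Finset.sum_comm]
      refine Finset.sum_congr rfl fun j _ => ?_
      rw [Finset.sum_range]
      refine Finset.sum_congr rfl fun j0 _ => ?_
      have h1 := LP_snoc φ s (m + 1) 1 m r j0 j
      have h2 : par _ (Fin.snoc j j0 : Fin (m + 1) → Fin r) = par _ j + ((j0 : ℕ) : ZMod 2) := by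
        simp [hpar, Fin.sum_univ_castSucc]
      have h3 : Perm.Disjoint (LP φ s (m + 1) 1 m r j)
          (φ ^ ((m + 1) * (j0 + 1)) * s * (φ ^ ((m + 1) * (j0 + 1)))⁻¹) := by
        intro x
        by_cases hx : x ∈ K
        · exact Or.inl (hL m 1 one_pos (by omega) j x hx)
        · exact Or.inr (hS0 _ x hx)
      rw [show 1 + m + (m + 1) * (j0 : ℕ) = (m + 1) * (j0 + 1) by ring, h3.commute.eq] at h1
      have h4 : (Fin.snocEquiv fun _ : Fin (m + 1) => Fin r) (j0, j) = Fin.snoc j j0 := rfl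
      rw [h4, ← h1, h2]
      have h5 : (par _ j + ((j0 : ℕ) : ZMod 2) = 0) ↔
          (par _ j + (((j0 : ℕ) + 1 : ℕ) : ZMod 2) = 1) := by
        push_cast
        rw [← add_assoc]
        generalize par _ j + ((j0 : ℕ) : ZMod 2) = z
        revert z; decide
      by_cases h6 : par _ j + ((j0 : ℕ) : ZMod 2) = 0
      · rw [if_pos h6, if_pos (h5.1 h6), ← hw, LP_conj]
      · rw [if_neg h6, if_neg (fun h => h6 (h5.2 h)), neg_zero]
    rw [e1, e0]
    refine Finset.sum_congr rfl fun j _ => ?_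
    set f : ℕ → M := fun j0 => if par _ j + (j0 : ZMod 2) = 1 then
          w (φ ^ ((m + 1) * j0) * s * (φ ^ ((m + 1) * j0))⁻¹ * LP φ s (m + 1) 1 m r j) else 0
      with hf
    have hf0 : f r = f 0 := by
      have : ((r : ℕ) : ZMod 2) = 0 := (ZMod.natCast_eq_zero_iff_even).2 hr
      simp only [hf, this, Nat.cast_zero]
      rw [hwrap _ (hL m 1 one_pos (by omega) j)]
      simp
    have h1 := Finset.sum_range_succ f r
    have h2 := Finset.sum_range_succ' f r
    change ∑ j0 ∈ range r, f j0 = ∑ j0 ∈ range r, f (j0 + 1)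
    rw [hf0, h2] at h1
    exact (add_right_cancel h1).symm
  rw [hsum, hshift, add_neg_cancel]

end Pool.Agent.P.MP_647b44_gt
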